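import Pool.Agent.H79.DO.Stmts

/-!
# Project DO: modules BAS and MAT
-/

set_option autoImplicit false

namespace Pool.Agent.H23.DO

open Pool.Agent.H83 Pool.Agent.H79.DO Matrix

/-- The real matrices of a family of integer matrices. -/
noncomputable def rm {S L : Type} (N : L → S → S → ℕ) : L → Matrix S S ℝ :=
  fun l => Matrix.of fun s t => (N l s t : ℝ)

lemma ev_rm {S L : Type} [Fintype S] (N : L → S → S → ℕ) (u : List L) :
    ev (rm N) u = fun s => (XV N u s : ℝ) := by
  induction u with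
  | nil =>
    funext s
    simp [ev, XV]
  | cons l u ih =>
    funext s
    simp only [ev, XV, ih, rm, Matrix.mulVec, dotProduct, Matrix.of_apply]
    push_cast
    rfl

theorem bas : BAS := by
  intro S L _ _ N
  classical
  set s : Set (S → ℝ) := ev (rm N) '' {u : List L | u.length ≤ Fintype.card S} with hs
  obtain ⟨f, hf1, hf2, hf3⟩ := Submodule.exists_fun_fin_finrank_span_eq ℝ s
  choose u hu1 hu2 using hf1
  have hfu : f = fun i s => (XV N (u i) s : ℝ) := by
    funext i
    rw [← hu2 i, ev_rm]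
  refine ⟨_, u, ?_, hu1, ?_, ?_⟩
  · have := Submodule.finrank_le (Submodule.span ℝ s)
    rwa [Module.finrank_fintype_fun_eq_card] at this
  · rw [hfu] at hf3
    exact hf3
  · rw [hfu] at hf2
    rw [hf2, hs]
    have h1 : evSpan (rm N) = evSpanLE (rm N) (Fintype.card S) := evSpan_eq
    have h2 : XSpan N = evSpan (rm N) := by
      unfold XSpan evSpan
      congr 1
      congr 1
      funext u
      rw [ev_rm]
    rw [h2, h1]
    rfl

section

variable {S A L : Type} [Fintype S] [Fintype A] [Fintype L]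

theorem mat_eq {M : LMDP S A L} {w : S → A → ℕ} {W : ℕ} {σ : Strategy M}
    {P : S → A → L → S → ℕ} {D : ℕ} (hw : Weights M w W σ) (hP : Numer M P D) (l : L) (s t : S) :
    M.mat σ l s t = (NG w P l s t : ℝ) / (W * D) := by
  classical
  have hW : (W : ℝ) ≠ 0 := by exact_mod_cast hw.pos.ne'
  have hD : (D : ℝ) ≠ 0 := by exact_mod_cast hP.pos.ne'
  have e : M.mat σ l s t = ∑ a ∈ M.enabled s, σ.wt s a * (M.prob s a (l, t) : ℝ) := rfl
  rw [e, eq_div_iff (mul_ne_zero hW hD), Finset.sum_mul]
  unfold NG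
  push_cast
  rw [← Finset.sum_subset (Finset.subset_univ (M.enabled s))]
  · refine Finset.sum_congr rfl fun a ha => ?_
    rw [hw.eq s a, hP.eq s a ha l t]
    push_cast
    field_simp
  · intro a _ ha
    rw [hw.off s a ha]
    simp

theorem ev_mat {M : LMDP S A L} {w : S → A → ℕ} {W : ℕ} {σ : Strategy M}
    {P : S → A → L → S → ℕ} {D : ℕ} (hw : Weights M w W σ) (hP : Numer M P D) (u : List L) (s : S) :
    ev (M.mat σ) u s = (XV (NG w P) u s : ℝ) / ((W * D : ℝ) ^ u.length) := by
  induction u generalizing s with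
  | nil => simp [ev, XV]
  | cons l u ih =>
    simp only [ev, XV, Matrix.mulVec, dotProduct, List.length_cons]
    push_cast
    rw [Finset.sum_div]
    refine Finset.sum_congr rfl fun t _ => ?_
    rw [mat_eq hw hP, ih, pow_succ', div_mul_div_comm]

end

theorem mat : MAT := by
  intro S A L _ _ _ M w W σ P D hw hP
  refine ⟨mat_eq hw hP, ?_⟩
  have hW : (W : ℝ) ≠ 0 := by exact_mod_cast hw.pos.ne'
  have hD : (D : ℝ) ≠ 0 := by exact_mod_cast hP.pos.ne'
  have hWD : ∀ k : ℕ, ((W * D : ℝ) ^ k) ≠ 0 := fun k => pow_ne_zero _ (mul_ne_zero hW hD)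
  apply le_antisymm
  · refine Submodule.span_le.mpr ?_
    rintro _ ⟨u, rfl⟩
    have : ev (M.mat σ) u = ((W * D : ℝ) ^ u.length)⁻¹ • (fun s => (XV (NG w P) u s : ℝ)) := by
      funext s
      rw [ev_mat hw hP]
      simp only [Pi.smul_apply, smul_eq_mul]
      rw [div_eq_inv_mul]
    rw [this]
    exact Submodule.smul_mem _ _ (Submodule.subset_span ⟨u, rfl⟩)
  · refine Submodule.span_le.mpr ?_
    rintro _ ⟨u, rfl⟩
    have : (fun s => (XV (NG w P) u s : ℝ)) = ((W * D : ℝ) ^ u.length) • ev (M.mat σ) u := by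
      funext s
      simp only [Pi.smul_apply, smul_eq_mul]
      rw [ev_mat hw hP, mul_div_cancel₀ _ (hWD _)]
    simp only [this]
    exact Submodule.smul_mem _ _ (Submodule.subset_span ⟨u, rfl⟩)

end Pool.Agent.H23.DO
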