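import Pool.Agent.H79.DO.Stmts

/-!
# Project DO: modules PNSUM and PNALG
-/

set_option autoImplicit false

namespace Pool.Agent.H23.DO

open Pool.Agent.H79.DO TMLib
open Pool.Agent.H74.PPAD (num addB mulB ltB addB_spec mulB_spec ptime_addB ptime_mulB
  num_nat_bits sz_bits_le' length_addB)

theorem pnalg : PNALG := by
  intro α β _ _
  refine ⟨?_, ?_, ?_, ?_, ?_, ?_⟩
  · rintro f g ⟨f', hf, ef⟩ ⟨g', hg, eg⟩
    exact ⟨fun x => addB (f' x) (g' x), ptime_addB hf hg, fun x => by rw [addB_spec, ef, eg]⟩
  · rintro f g ⟨f', hf, ef⟩ ⟨g', hg, eg⟩
    exact ⟨fun x => mulB (f' x) (g' x), ptime_mulB hf hg, fun x => by rw [mulB_spec, ef, eg]⟩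
  · rintro f g ⟨f', hf, ef⟩ hg
    exact ⟨fun x => f' (g x), hf.comp hg, fun x => ef _⟩
  · intro c
    exact ⟨fun _ => c.bits, PTime.const _, fun _ => num_nat_bits c⟩
  · intro g hg
    exact ⟨g, hg, fun _ => rfl⟩
  · intro g hg
    exact ⟨fun x => (g x).bits, PTime.bits hg, fun x => num_nat_bits _⟩

theorem pnsum : PNSUM := by
  intro α _ f n hf hn
  obtain ⟨g, hg, eg⟩ := hf
  obtain ⟨B, hB⟩ := hg.exists_size_le
  refine ⟨fun x => (List.range (n x)).foldl (fun acc i => addB acc (g (x, i))) [], ?_, ?_⟩
  · refine PTime.foldl (f := fun x acc i => addB acc (g (x, i)))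
      (init := fun _ => ([] : List Bool)) (l := fun x => List.range (n x)) ?_ (PTime.const _)
      (PTime.range hn)
      (h := fun x => 1 + 4 * (sz (n x) * (B.eval (1 + sz x + sz (n x)) + 1)))
      ((PB.const 1).add ((PB.const 4).mul (hn.pb.mul
        (((((PB.const 1).add PB.sz_self).add hn.pb).poly B).add (PB.const 1))))) ?_
    · exact ptime_addB (PTime.fst (PTime.snd PTime.id))
        (hg.comp (PTime.pair (PTime.fst PTime.id) (PTime.snd (PTime.snd PTime.id))))
    · intro x l' hl'
      refine (sz_bits_le' _).trans ?_
      have key : ∀ (l : List ℕ) (acc : List Bool), (∀ i ∈ l, i ≤ n x) →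
          (l.foldl (fun acc i => addB acc (g (x, i))) acc).length ≤
            acc.length + l.length * (B.eval (1 + sz x + sz (n x)) + 1) := by
        intro l
        induction l with
        | nil => intro acc _; simp
        | cons i l ih =>
          intro acc hl
          rw [List.foldl_cons]
          refine (ih _ fun j hj => hl j (List.mem_cons_of_mem _ hj)).trans ?_
          rw [length_addB, List.length_cons, Nat.add_mul, Nat.one_mul]
          have h1 := length_lt_sz (g (x, i))
          have h2 := hB (x, i)
          have h3 : B.eval (sz (x, i)) ≤ B.eval (1 + sz x + sz (n x)) := by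
            apply eval_mono
            have := hl i List.mem_cons_self
            simp only [sz_pair, sz_nat]
            omega
          omega
      have hmem : ∀ i ∈ l', i ≤ n x := by
        intro i hi
        have := hl'.subset hi
        simp only [List.mem_range] at this
        omega
      have h3 := key l' [] hmem
      have h4 := hl'.length_le
      rw [List.length_range] at h4
      have h5 : l'.length * (B.eval (1 + sz x + sz (n x)) + 1) ≤
          sz (n x) * (B.eval (1 + sz x + sz (n x)) + 1) :=
        Nat.mul_le_mul_right _ (by rw [sz_nat]; omega)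
      simp only [List.length_nil, Nat.zero_add] at h3
      omega
  · intro x
    have key : ∀ (k : ℕ), num ((List.range k).foldl (fun acc i => addB acc (g (x, i))) []) =
        ∑ i ∈ Finset.range k, f x i := by
      intro k
      induction k with
      | zero => rfl
      | succ k ih =>
        rw [List.range_succ, List.foldl_append, Finset.sum_range_succ, ← ih]
        simp only [List.foldl_cons, List.foldl_nil]
        rw [addB_spec, eg]
    exact key (n x)

end Pool.Agent.H23.DO
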